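import Mathlib

set_option autoImplicit false

namespace Pool.Agent.Results.MP_aaa104_nt.Counterexample

/-- The group of positive rationals a/b with a, b both n-smooth (all prime factors at most n). -/
def Khat (n : ℕ) : Set ℚ :=
  {x | ∃ a b : ℕ, 0 < a ∧ 0 < b ∧ (∀ p : ℕ, p.Prime → p ∣ a → p ≤ n) ∧
    (∀ p : ℕ, p.Prime → p ∣ b → p ≤ n) ∧ x = (a : ℚ) / (b : ℚ)}

/-- c is an n-satisfactory coloring of Khat n (values of c off Khat n play no role). -/
def Satisfactory (n : ℕ) (c : ℚ → ℕ) : Prop :=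
  (∀ x ∈ Khat n, 1 ≤ c x ∧ c x ≤ n) ∧
  (∀ i : ℕ, 1 ≤ i → i ≤ n → c (i : ℚ) = i) ∧
  (∀ x ∈ Khat n, ∀ i j : ℕ, 1 ≤ i → i < j → j ≤ n → c ((i : ℚ) * x) ≠ c ((j : ℚ) * x))

/-- The color class of color k. -/
def colorClass (n : ℕ) (c : ℚ → ℕ) (k : ℕ) : Set ℚ := {x | x ∈ Khat n ∧ c x = k}

/-- The part with index i of the partition induced by X: all y in Khat n with y / i in X. -/
def part (n : ℕ) (X : Set ℚ) (i : ℕ) : Set ℚ := {y | y ∈ Khat n ∧ y / (i : ℚ) ∈ X}

/-- The homomorphism to Z/12 used to pull back the coloring. -/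
def phi (x : ℚ) : ZMod 12 :=
  (padicValRat 2 x : ZMod 12) + 6 * (padicValRat 3 x : ZMod 12) + 8 * (padicValRat 5 x : ZMod 12)

/-- The coloring of Z/12. -/
def tab : ZMod 12 → ℕ := ![1, 2, 4, 1, 6, 4, 3, 6, 5, 3, 2, 5]

lemma phi_mul {x y : ℚ} (hx : x ≠ 0) (hy : y ≠ 0) : phi (x * y) = phi x + phi y := by
  have : Fact (Nat.Prime 2) := ⟨by norm_num⟩
  have : Fact (Nat.Prime 3) := ⟨by norm_num⟩
  have : Fact (Nat.Prime 5) := ⟨by norm_num⟩
  unfold phi
  rw [padicValRat.mul hx hy, padicValRat.mul hx hy, padicValRat.mul hx hy]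
  push_cast
  ring

lemma phi_one : phi 1 = 0 := by simp [phi]

lemma val_prime (p q : ℕ) (hp : p.Prime) (hq : q.Prime) :
    padicValRat p (q : ℚ) = if p = q then 1 else 0 := by
  have : Fact (Nat.Prime p) := ⟨hp⟩
  have : Fact (Nat.Prime q) := ⟨hq⟩
  split_ifs with h
  · subst h
    exact padicValRat.self hp.one_lt
  · rw [padicValRat.of_nat, padicValNat_primes h]
    simp

lemma phi_two : phi 2 = 1 := by
  have h2 := val_prime 2 2 (by norm_num) (by norm_num)
  have h3 := val_prime 3 2 (by norm_num) (by norm_num)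
  have h5 := val_prime 5 2 (by norm_num) (by norm_num)
  norm_num at h2 h3 h5
  simp [phi, h2, h3, h5]

lemma phi_three : phi 3 = 6 := by
  have h2 := val_prime 2 3 (by norm_num) (by norm_num)
  have h3 := val_prime 3 3 (by norm_num) (by norm_num)
  have h5 := val_prime 5 3 (by norm_num) (by norm_num)
  norm_num at h2 h3 h5
  simp [phi, h2, h3, h5]

lemma phi_five : phi 5 = 8 := by
  have h2 := val_prime 2 5 (by norm_num) (by norm_num)
  have h3 := val_prime 3 5 (by norm_num) (by norm_num)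
  have h5 := val_prime 5 5 (by norm_num) (by norm_num)
  norm_num at h2 h3 h5
  simp [phi, h2, h3, h5]

lemma phi_four : phi 4 = 2 := by
  have : (4 : ℚ) = 2 * 2 := by norm_num
  rw [this, phi_mul (by norm_num) (by norm_num), phi_two]
  rfl

lemma phi_six : phi 6 = 7 := by
  have : (6 : ℚ) = 2 * 3 := by norm_num
  rw [this, phi_mul (by norm_num) (by norm_num), phi_two, phi_three]
  rfl

/-- The values of phi on 1, ..., 6. -/
def sh : ℕ → ZMod 12
  | 1 => 0
  | 2 => 1
  | 3 => 6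
  | 4 => 2
  | 5 => 8
  | _ => 7

lemma phi_small (i : ℕ) (h1 : 1 ≤ i) (h6 : i ≤ 6) : phi (i : ℚ) = sh i := by
  interval_cases i
  · simpa [sh] using phi_one
  · simpa [sh] using phi_two
  · simpa [sh] using phi_three
  · simpa [sh] using phi_four
  · simpa [sh] using phi_five
  · simpa [sh] using phi_six

lemma phi_pow (a : ℕ) : phi ((2 : ℚ) ^ a) = (a : ZMod 12) := by
  induction a with
  | zero => simpa using phi_one
  | succ a ih =>
    rw [pow_succ, phi_mul (by positivity) (by norm_num), ih, phi_two]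
    push_cast
    ring

lemma pow_mem (a : ℕ) : (2 : ℚ) ^ a ∈ Khat 6 := by
  refine ⟨2 ^ a, 1, by positivity, by norm_num, ?_, ?_, by simp⟩
  · intro p hp h
    have := Nat.le_of_dvd (by norm_num) (hp.dvd_of_dvd_pow h)
    omega
  · intro p hp h
    exact absurd (Nat.dvd_one.mp h) hp.one_lt.ne'

lemma ne_zero_of_mem {n : ℕ} {x : ℚ} (hx : x ∈ Khat n) : x ≠ 0 := by
  obtain ⟨a, b, ha, hb, -, -, rfl⟩ := hx
  positivity

lemma tab_range : ∀ z : ZMod 12, 1 ≤ tab z ∧ tab z ≤ 6 := by decide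

lemma tab_rainbow : ∀ z : ZMod 12, ∀ i ∈ Finset.Icc 1 6, ∀ j ∈ Finset.Icc 1 6, i < j →
    tab (sh i + z) ≠ tab (sh j + z) := by decide

lemma tab_split : ∀ k ∈ Finset.Icc 1 6, ∃ a ∈ Finset.range 12, ∃ b ∈ Finset.range 12,
    tab (a : ZMod 12) = k ∧ tab (b : ZMod 12) = k ∧
      tab ((a + 1 : ℕ) : ZMod 12) ≠ tab ((b + 1 : ℕ) : ZMod 12) := by decide

theorem result :
    ∃ c : ℚ → ℕ, Satisfactory 6 c ∧
      ∀ k : ℕ, 1 ≤ k → k ≤ 6 → ∀ l : ℕ, part 6 (colorClass 6 c k) 2 ≠ colorClass 6 c l := by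
  refine ⟨fun x => tab (phi x), ⟨fun x _ => tab_range _, ?_, ?_⟩, ?_⟩
  · intro i h1 h6
    show tab (phi (i : ℚ)) = i
    rw [phi_small i h1 h6]
    interval_cases i <;> rfl
  · intro x hx i j h1 hij h6
    have hx0 := ne_zero_of_mem hx
    have hi : (i : ℚ) ≠ 0 := by positivity
    have hj : (j : ℚ) ≠ 0 := by
      have : 0 < j := by omega
      positivity
    show tab (phi ((i : ℚ) * x)) ≠ tab (phi ((j : ℚ) * x))
    rw [phi_mul hi hx0, phi_mul hj hx0, phi_small i h1 (by omega), phi_small j (by omega) h6]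
    exact tab_rainbow _ i (Finset.mem_Icc.mpr ⟨h1, by omega⟩) j
      (Finset.mem_Icc.mpr ⟨by omega, h6⟩) hij
  · intro k h1 h6 l heq
    obtain ⟨a, -, b, -, ha, hb, hab⟩ := tab_split k (Finset.mem_Icc.mpr ⟨h1, h6⟩)
    have key : ∀ m : ℕ, tab (m : ZMod 12) = k → tab ((m + 1 : ℕ) : ZMod 12) = l := by
      intro m hm
      have hmem : (2 : ℚ) ^ (m + 1) ∈ part 6 (colorClass 6 (fun x => tab (phi x)) k) 2 := by
        refine ⟨pow_mem _, ?_⟩
        have : (2 : ℚ) ^ (m + 1) / ((2 : ℕ) : ℚ) = 2 ^ m := by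
          rw [pow_succ]
          push_cast
          field_simp
        rw [this]
        exact ⟨pow_mem _, by show tab (phi _) = k; rw [phi_pow]; exact hm⟩
      rw [heq] at hmem
      have h2 : tab (phi ((2 : ℚ) ^ (m + 1))) = l := hmem.2
      rwa [phi_pow] at h2
    exact hab ((key a ha).trans (key b hb).symm)

end Pool.Agent.Results.MP_aaa104_nt.Counterexample
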